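import Pool.Agent.helper19.SK.LOC
import Pool.Agent.helper63.HF.CLZ

/-!
# Project SK (MP_bf63dc_nt): more than `k/4` of `k` linear forms give pairwise cases with a positive proportion of true cases in every long interval
-/

set_option autoImplicit false

namespace Pool.Agent.SK

open Finset Pool.Agent.AT
open Pool.Agent.HF (cz FEZ TC CLZ_adm CLZ_J)

/-- there is `D` such that for every multiple `q` of `D` every long progression of step `q` which starts in the class of `c` modulo `D` contains at least the proportion `η` of true cases for `(a, b)` -/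
def Dens (η : ℝ) (a b : ℕ) (c : ℤ) : Prop :=
  ∃ D : ℕ, 1 ≤ D ∧ ∀ q : ℕ, 1 ≤ q → D ∣ q → ∃ M₀ : ℕ, ∀ M : ℕ, M₀ ≤ M → ∀ Y : ℤ, (D : ℤ) ∣ Y - c → η * M ≤ cz (TC a b) Y q M

theorem NZ_aux {k : ℕ} (F : Fin k → ℕ × ℤ) (hF : Adm F) (S : Finset ℕ) (hS : ∀ p ∈ S, p.Prime) :
    ∃ n : ℕ, ∀ p ∈ S, ∀ i, ¬ (p : ℤ) ∣ ((F i).1 : ℤ) * n + (F i).2 := by
  classical
  induction S using Finset.induction_on with
  | empty => exact ⟨0, fun p hp => absurd hp (notMem_empty p)⟩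
  | insert p S hp ih =>
    obtain ⟨n, hn⟩ := ih fun q hq => hS q (mem_insert_of_mem hq)
    have hpp : p.Prime := hS p (mem_insert_self p S)
    obtain ⟨m, hm⟩ := hF p hpp
    have hcop : Nat.Coprime (∏ q ∈ S, q) p := by
      refine Nat.Coprime.prod_left fun q hq => ?_
      refine (Nat.coprime_primes (hS q (mem_insert_of_mem hq)) hpp).2 ?_
      intro h
      rw [h] at hq
      exact hp hq
    obtain ⟨x, hx1, hx2⟩ := Nat.chineseRemainder hcop n m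
    refine ⟨x, fun q hq i hd => ?_⟩
    rcases mem_insert.1 hq with h | h
    · rw [h] at hd
      apply hm i
      have h1 : (p : ℤ) ∣ (x : ℤ) - m := by
        have := (Nat.modEq_iff_dvd.1 hx2.symm)
        exact this
      have h2 := dvd_sub hd (h1.mul_left ((F i).1 : ℤ))
      have e : ((F i).1 : ℤ) * x + (F i).2 - ((F i).1 : ℤ) * (x - m) = ((F i).1 : ℤ) * m + (F i).2 := by ring
      rw [e] at h2
      exact h2
    · apply hn q h i
      have h1 : (q : ℤ) ∣ (x : ℤ) - n := by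
        have h3 := (Nat.modEq_iff_dvd.1 hx1.symm)
        have h4 : (q : ℤ) ∣ ((∏ q ∈ S, q : ℕ) : ℤ) := Int.natCast_dvd_natCast.2 (dvd_prod_of_mem _ h)
        exact h4.trans h3
      have h2 := dvd_sub hd (h1.mul_left ((F i).1 : ℤ))
      have e : ((F i).1 : ℤ) * x + (F i).2 - ((F i).1 : ℤ) * (x - n) = ((F i).1 : ℤ) * n + (F i).2 := by ring
      rw [e] at h2
      exact h2

theorem NZ {k : ℕ} (F : Fin k → ℕ × ℤ) (hF : Adm F) (D : ℕ) (hD : 1 ≤ D) : ∃ n : ℕ, ∀ i, IsCoprime (((F i).1 : ℤ) * n + (F i).2) (D : ℤ) := by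
  obtain ⟨n, hn⟩ := NZ_aux F hF D.primeFactors fun p hp => Nat.prime_of_mem_primeFactors hp
  refine ⟨n, fun i => ?_⟩
  rw [Int.isCoprime_iff_gcd_eq_one]
  by_contra h
  obtain ⟨p, hp, hpd⟩ := Nat.exists_prime_and_dvd h
  have h1 : (p : ℤ) ∣ ((F i).1 : ℤ) * n + (F i).2 := (Int.natCast_dvd_natCast.2 hpd).trans (Int.gcd_dvd_left _ _)
  have h2 : (p : ℤ) ∣ (D : ℤ) := (Int.natCast_dvd_natCast.2 hpd).trans (Int.gcd_dvd_right _ _)
  exact hn p (Nat.mem_primeFactors.2 ⟨hp, Int.natCast_dvd_natCast.1 h2, by omega⟩) i h1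

/-- low windows of all lengths -/
theorem LOWS (η : ℝ) (g : ℤ → Prop) (D q : ℕ) (hq : 1 ≤ q) (hDq : D ∣ q) (c : ℤ)
    (h : ∀ M₀ : ℕ, ∃ M : ℕ, M₀ ≤ M ∧ ∃ Y : ℤ, (D : ℤ) ∣ Y - c ∧ (cz g Y q M : ℝ) < η * M) :
    ∀ l : ℕ, ∃ Y : ℤ, (D : ℤ) ∣ Y - c ∧ (cz g Y q l : ℝ) ≤ η * l := by
  have _ := hq
  obtain ⟨γ, -, -, h1, h2⟩ := FEZ g (fun Y => (D : ℤ) ∣ Y - c) q ⟨c, by rw [sub_self]; exact dvd_zero _⟩ (fun Y hY => by
    have e : Y + (q : ℤ) - c = (Y - c) + (q : ℤ) := by ring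
    rw [e]
    exact dvd_add hY (Int.natCast_dvd_natCast.2 hDq))
  have h3 : γ ≤ η := by
    by_contra hcon
    push Not at hcon
    obtain ⟨l₀, h4⟩ := h2 ((γ - η) / 2) (by linarith)
    obtain ⟨M, hM, Y, hY, h5⟩ := h (max l₀ 1)
    have h6 := h4 M ((le_max_left _ _).trans hM) Y hY
    have h7 : (1 : ℝ) ≤ M := by exact_mod_cast (le_max_right _ _).trans hM
    nlinarith
  intro l
  obtain ⟨Y, hY, h4⟩ := h1 l
  exact ⟨Y, hY, h4.trans (mul_le_mul_of_nonneg_right h3 (Nat.cast_nonneg l))⟩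

/-- **MAIN.** -/
theorem MAIN (hQ : ∀ k : ℕ, 1 ≤ k → Qk k) (k : ℕ) (hk : 1 ≤ k) : ∃ η : ℝ, 0 < η ∧ ∀ F : Fin k → ℕ × ℤ, (∀ i, 0 < (F i).1) → Adm F →
    ∃ I : Finset (Fin k), (k : ℝ) / 4 < #I ∧ ∀ i ∈ I, ∀ j ∈ I, i ≠ j →
      Dens η ((F j).1 / Nat.gcd (F i).1 (F j).1) ((F i).1 / Nat.gcd (F i).1 (F j).1)
        ((((F j).1 / Nat.gcd (F i).1 (F j).1 : ℕ) : ℤ) * (F i).2 - (((F i).1 / Nat.gcd (F i).1 (F j).1 : ℕ) : ℤ) * (F j).2) := by
  classical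
  obtain ⟨T, hT⟩ : ∃ T : ℕ, T = 500000 * (k * k + 1) * k := ⟨_, rfl⟩
  obtain ⟨P, hP⟩ : ∃ P : ℕ, P = (k * k + 1) ^ T := ⟨_, rfl⟩
  have hT1 : 1 ≤ T := by
    rw [hT]
    have : 0 < 500000 * (k * k + 1) * k := by positivity
    omega
  have hP1 : 1 ≤ P := by
    rw [hP]
    exact Nat.one_le_pow _ _ (by omega)
  obtain ⟨k', hk'⟩ : ∃ k' : ℕ, k' = P * k := ⟨_, rfl⟩
  have hk'1 : 1 ≤ k' := by rw [hk']; exact Nat.mul_pos hP1 hk
  obtain ⟨C, δ, hC, hδ, -, hQ⟩ := hQ k' hk'1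
  obtain ⟨R, hR1, hR⟩ : ∃ R : ℕ, 1 ≤ R ∧ C * (R : ℝ) ^ (-δ) < 1 := by
    have h1 : Filter.Tendsto (fun L : ℕ => C * (L : ℝ) ^ (-δ)) Filter.atTop (nhds (C * 0)) :=
      ((tendsto_rpow_neg_atTop hδ).comp tendsto_natCast_atTop_atTop).const_mul C
    rw [mul_zero] at h1
    obtain ⟨L, h2, h3⟩ := ((h1.eventually (gt_mem_nhds one_pos)).and
      (Filter.eventually_ge_atTop 1)).exists
    exact ⟨L, h3, h2⟩
  obtain ⟨N, hN⟩ : ∃ N : ℕ, N = (k * k + 1) ^ T * (k * k + 1) ^ T * (R * R) := ⟨_, rfl⟩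
  refine ⟨1 / (8 * ((N : ℝ) + 1)), by positivity, ?_⟩
  intro F hF0 hF
  by_contra hcon
  push Not at hcon
  obtain ⟨η, hη⟩ : ∃ η : ℝ, η = 1 / (8 * ((N : ℝ) + 1)) := ⟨_, rfl⟩
  rw [← hη] at hcon
  have hη0 : 0 < η := by rw [hη]; positivity
  have hNη : 4 * (((N : ℕ) : ℝ) + 1) * η < 1 := by
    rw [hη]
    have : (0 : ℝ) < (N : ℝ) + 1 := by positivity
    rw [mul_one_div, div_lt_one (by positivity)]
    linarith
  -- slopes
  obtain ⟨d, hd⟩ : ∃ d : Fin k → Fin k → ℕ, d = fun i j => Nat.gcd (F i).1 (F j).1 := ⟨_, rfl⟩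
  obtain ⟨a, ha⟩ : ∃ a : Fin k → Fin k → ℕ, a = fun i j => (F j).1 / Nat.gcd (F i).1 (F j).1 := ⟨_, rfl⟩
  obtain ⟨b, hb⟩ : ∃ b : Fin k → Fin k → ℕ, b = fun i j => (F i).1 / Nat.gcd (F i).1 (F j).1 := ⟨_, rfl⟩
  have hd0 : ∀ i j, 0 < d i j := fun i j => by rw [hd]; exact Nat.gcd_pos_of_pos_left _ (hF0 i)
  have hda : ∀ i j, d i j * a i j = (F j).1 := fun i j => by rw [hd, ha]; exact Nat.mul_div_cancel' (Nat.gcd_dvd_right _ _)
  have hdb : ∀ i j, d i j * b i j = (F i).1 := fun i j => by rw [hd, hb]; exact Nat.mul_div_cancel' (Nat.gcd_dvd_left _ _)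
  obtain ⟨cc, hcc⟩ : ∃ cc : Fin k → Fin k → ℤ, cc = fun i j => (a i j : ℤ) * (F i).2 - (b i j : ℤ) * (F j).2 := ⟨_, rfl⟩
  obtain ⟨Bad, hBad⟩ : ∃ Bad : Fin k → Fin k → Prop, Bad = fun i j => i ≠ j ∧ ¬ Dens η (a i j) (b i j) (cc i j) := ⟨_, rfl⟩
  have hβ : ∀ I : Finset (Fin k), (∀ i ∈ I, ∀ j ∈ I, ¬ Bad i j) → (#I : ℝ) ≤ (k : ℝ) / 4 := by
    intro I hI
    by_contra h
    push Not at h
    obtain ⟨i, hi, j, hj, hij, hn⟩ := hcon I h
    apply hI i hi j hj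
    rw [hBad]
    refine ⟨hij, ?_⟩
    rw [hcc, ha, hb]
    exact hn
  -- the moduli
  obtain ⟨D₁, hD₁⟩ : ∃ D₁ : ℕ, D₁ = (∏ i, (F i).1) * Nat.factorial k' := ⟨_, rfl⟩
  have hD₁1 : 1 ≤ D₁ := by
    rw [hD₁]
    exact Nat.mul_pos (prod_pos fun i _ => hF0 i) (Nat.factorial_pos k')
  obtain ⟨L, hL⟩ : ∃ L : Fin k → Fin k → ℕ, L = fun i j => b i j * (F j).1 := ⟨_, rfl⟩
  have hL1 : ∀ i j, Bad i j → 1 ≤ L i j := by
    intro i j _
    have hb1 : 0 < b i j := Nat.pos_of_ne_zero fun h => by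
      have := hdb i j
      rw [h, mul_zero] at this
      have := hF0 i
      omega
    rw [hL]
    exact Nat.mul_pos hb1 (hF0 j)
  obtain ⟨S, q, E, hE1, hDE, hDS, hq1, hSq, hqE, hqS, hlow⟩ := MODS k T D₁ hD₁1 L Bad hL1
    (fun i j D q => ∀ l : ℕ, ∃ Y : ℤ, (D : ℤ) ∣ Y - cc i j ∧ (cz (TC (a i j) (b i j)) Y q l : ℝ) ≤ η * l) (by
    intro i j hB D hD
    rw [hBad] at hB
    obtain ⟨-, h1⟩ := hB
    unfold Dens at h1
    push Not at h1
    obtain ⟨q, h2, h3, h4⟩ := h1 D hD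
    refine ⟨q, h2, h3, LOWS η _ D q h2 h3 _ fun M₀ => ?_⟩
    obtain ⟨M, h5, Y, h6, h7⟩ := h4 M₀
    exact ⟨M, h5, Y, h6, h7⟩)
  have hNη' : 4 * ((((k * k + 1) ^ T * (k * k + 1) ^ T * (R * R) : ℕ) : ℝ) + 1) * η < 1 := by
    rw [← hN]
    exact hNη
  obtain ⟨Δ, hΔ0, hΔQ, hΔ⟩ := LOC k T R E η hη0 hNη' a b L cc (fun i j => TC (a i j) (b i j)) Bad S q hq1
    (fun l _ => hSq l) hqE hqS (fun l _ => hlow l) T le_rfl
  obtain ⟨n₀, hn₀⟩ := NZ F hF D₁ hD₁1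
  -- the forms
  obtain ⟨fm, hfm⟩ : ∃ fm : Path k T × Fin k → ℕ → ℕ × ℤ, fm = fun (v : Path k T × Fin k) (u : ℕ) => ((F v.2).1, ((F v.2).1 : ℤ) * n₀ + (F v.2).2 + (F v.2).1 * shift Δ v.1 + (E : ℕ) * (u : ℤ)) := ⟨_, rfl⟩
  have hfm1 : ∀ v u, (fm v u).1 = (F v.2).1 := fun v u => by rw [hfm]
  have hfm2 : ∀ v u, (fm v u).2 = ((F v.2).1 : ℤ) * n₀ + (F v.2).2 + (F v.2).1 * shift Δ v.1 + (E : ℕ) * (u : ℤ) := fun v u => by rw [hfm]
  have hfinj : ∀ v, Function.Injective (fm v) := by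
    intro v u u' h
    have h1 := congrArg Prod.snd h
    rw [hfm2, hfm2] at h1
    have h2 : ((E : ℕ) : ℤ) * (u : ℤ) = ((E : ℕ) : ℤ) * (u' : ℤ) := by linarith
    have h3 : ((E : ℕ) : ℤ) ≠ 0 := by exact_mod_cast (by omega : E ≠ 0)
    exact_mod_cast mul_left_cancel₀ h3 h2
  have hcard : Fintype.card (Path k T × Fin k) = k' := by
    rw [Fintype.card_prod, card_path, Fintype.card_fin, hk', hP]
  obtain ⟨σ⟩ : Nonempty (Fin k' ≃ Path k T × Fin k) := ⟨(Fintype.equivFinOfCardEq hcard).symm⟩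
  obtain ⟨F', hF'⟩ : ∃ F' : Fin k' → Finset (ℕ × ℤ), F' = fun i => (range R).image (fm (σ i)) := ⟨_, rfl⟩
  have hF'c : ∀ i, #(F' i) = R := by
    intro i
    rw [hF']
    dsimp only
    rw [card_image_of_injective _ (hfinj _), card_range]
  have hF'm : ∀ i, ∀ x ∈ F' i, ∃ u < R, x = fm (σ i) u := by
    intro i x hx
    rw [hF'] at hx
    obtain ⟨u, hu, rfl⟩ := mem_image.1 hx
    exact ⟨u, mem_range.1 hu, rfl⟩
  have hadm : ∀ f ∈ Fintype.piFinset F', Adm f := by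
    intro f hf
    rw [Fintype.mem_piFinset] at hf
    refine CLZ_adm k' D₁ f ?_ (fun i => ((F (σ i).2).1 : ℤ) * n₀ + (F (σ i).2).2) (fun i => hn₀ _) ?_
    · intro p hp hpD
      refine ⟨?_, ?_⟩
      · by_contra hlt
        apply hpD
        rw [hD₁]
        exact ((Nat.dvd_factorial hp.pos (not_lt.1 hlt)).mul_left _)
      · intro i hpi
        obtain ⟨u, -, hu⟩ := hF'm i _ (hf i)
        rw [hu, hfm1] at hpi
        apply hpD
        rw [hD₁]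
        exact (hpi.trans (dvd_prod_of_mem (fun i => (F i).1) (mem_univ _))).mul_right _
    · intro i
      obtain ⟨u, -, hu⟩ := hF'm i _ (hf i)
      rw [hu, hfm2]
      have e : ((F (σ i).2).1 : ℤ) * n₀ + (F (σ i).2).2 + (F (σ i).2).1 * shift Δ (σ i).1 + (E : ℕ) * (u : ℤ) - (((F (σ i).2).1 : ℤ) * n₀ + (F (σ i).2).2) =
          (F (σ i).2).1 * shift Δ (σ i).1 + (E : ℤ) * u := by ring
      rw [e]
      refine dvd_add (Dvd.dvd.mul_left ?_ _) (Dvd.dvd.mul_right (Int.natCast_dvd_natCast.2 hDE) _)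
      unfold shift
      exact dvd_sum fun l _ => (Int.natCast_dvd_natCast.2 (hDS l)).trans (hΔQ _ _)
  -- a tuple with a clique
  obtain ⟨f, hf, hMany⟩ : ∃ f ∈ Fintype.piFinset F', Many f := by
    by_contra hno
    push Not at hno
    have h1 := hQ F' R hR1 (fun i => by rw [hF'c]) (by
      intro i x hx
      obtain ⟨u, -, hu⟩ := hF'm i x hx
      rw [hu, hfm1]
      exact hF0 _)
    have h2 : {f ∈ Fintype.piFinset F' | Adm f ∧ ¬ Many f} = Fintype.piFinset F' := by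
      refine filter_true_of_mem fun f hf => ⟨hadm f hf, hno f hf⟩
    rw [h2, Fintype.card_piFinset] at h1
    have h3 : ∏ i : Fin k', (#(F' i) : ℝ) = (R : ℝ) ^ k' := by
      rw [prod_congr rfl (fun i _ => by rw [hF'c i]), prod_const, card_univ, Fintype.card_fin]
    push_cast at h1
    rw [h3] at h1
    have h4 : (0 : ℝ) < (R : ℝ) ^ k' := by
      have : (0 : ℝ) < R := by exact_mod_cast hR1
      positivity
    have h5 : C * (R : ℝ) ^ k' * (R : ℝ) ^ (-δ) = (C * (R : ℝ) ^ (-δ)) * (R : ℝ) ^ k' := by ring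
    rw [h5] at h1
    have h6 : (C * (R : ℝ) ^ (-δ)) * (R : ℝ) ^ k' < 1 * (R : ℝ) ^ k' := mul_lt_mul_of_pos_right hR h4
    linarith
  rw [Fintype.mem_piFinset] at hf
  have hu : ∀ i, ∃ u < R, f i = fm (σ i) u := fun i => hF'm i _ (hf i)
  choose u hu1 hu2 using hu
  obtain ⟨J, hJ1, hJ2⟩ := CLZ_J k' f hMany
  have hTRE := TRE k T ((k : ℝ) / 500000) ((k : ℝ) / 4) Bad (by positivity) (by
    rw [hT]
    push_cast
    have : (k : ℝ) / 500000 * (500000 * ((k : ℝ) * k + 1) * k) = ((k : ℝ) * k + 1) * k * k := by ring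
    rw [this]) hT1 (J.map σ.toEmbedding) (by
    intro l i j π π' hB hag hπ hπ' hi hj
    obtain ⟨x, hx, hxe⟩ := mem_map.1 hi
    obtain ⟨y, hy, hye⟩ := mem_map.1 hj
    have hxe' : σ x = (π, i) := hxe
    have hye' : σ y = (π', j) := hye
    have hfx : f x = fm (π, i) (u x) := by rw [hu2 x, hxe']
    have hfy : f y = fm (π', j) (u y) := by rw [hu2 y, hye']
    obtain ⟨h1, h2⟩ := hΔ l l.2 i j hB π π' (u x) (hu1 x) (u y) (hu1 y)
    have hsh := shift_sub Δ l π π' hag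
    rw [hπ, hπ', hΔ0, sub_zero] at hsh
    rw [← hsh] at h1 h2
    obtain ⟨c, hc⟩ : ∃ c : ℤ, c = cc i j + L i j * (shift Δ π - shift Δ π') + (E : ℕ) * ((a i j : ℤ) * (u x : ℕ) - b i j * (u y : ℕ)) := ⟨_, rfl⟩
    rw [← hc] at h1 h2
    have hda' : ((F j).1 : ℤ) = d i j * a i j := by exact_mod_cast (hda i j).symm
    have hdb' : ((F i).1 : ℤ) = d i j * b i j := by exact_mod_cast (hdb i j).symm
    have hnum : ((f y).1 : ℤ) * (f x).2 - (f x).1 * (f y).2 = d i j * c := by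
      rw [hfx, hfy, hfm1, hfm1, hfm2, hfm2, hc, hcc, hL]
      dsimp only
      push_cast
      rw [hda', hdb']
      ring
    have hne : f x ≠ f y := by
      intro h
      rw [h] at hnum
      have h3 : (d i j : ℤ) * c = 0 := by
        rw [← hnum]
        ring
      rcases mul_eq_zero.1 h3 with h4 | h4
      · have := hd0 i j
        omega
      · exact h1 h4
    have hP := PRT (f x) (f y) (by rw [hfx, hfm1]; exact hF0 _) (by rw [hfy, hfm1]; exact hF0 _) hne (by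
      intro p hp
      obtain ⟨m, hm⟩ := hadm f (Fintype.mem_piFinset.2 hf) p hp
      refine ⟨m, fun t => ?_⟩
      fin_cases t
      · exact hm x
      · exact hm y) (hJ2 x hx y hy)
    unfold Pair at hP
    rw [hnum] at hP
    have e1 : (f x).1 = (F i).1 := by rw [hfx, hfm1]
    have e2 : (f y).1 = (F j).1 := by rw [hfy, hfm1]
    rw [e1, e2] at hP
    have e3 : (d i j : ℤ) * c / (Nat.gcd (F i).1 (F j).1 : ℕ) = c := by
      have : (Nat.gcd (F i).1 (F j).1 : ℕ) = d i j := by rw [hd]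
      rw [this]
      exact Int.mul_ediv_cancel_left _ (by have := hd0 i j; omega)
    rw [e3] at hP
    apply h2
    rw [ha, hb]
    exact hP) hβ
  rw [card_map] at hTRE
  have hPr : (P : ℝ) = ((k * k + 1 : ℕ) : ℝ) ^ T := by rw [hP]; push_cast; ring
  rw [← hPr] at hTRE
  have hk'R : (k' : ℝ) = P * k := by
    rw [hk']
    push_cast
    ring
  rw [hk'R] at hJ1
  have : ((k : ℝ) / 4 + k / 500000) * P = (1 / 4 + 1 / 500000) * (P * k) := by ring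
  linarith

end Pool.Agent.SK
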