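import Pool.Agent.helper19.SK.TRE
import Pool.Agent.helper77.HF.GEZ
import Pool.Agent.helper89.HF.FEZ

/-!
# Project SK (MP_bf63dc_nt): the far translations
-/

set_option autoImplicit false

namespace Pool.Agent.SK

open Finset
open Pool.Agent.HF (cz GEZ FEZ)

/-- the part of the translation below the level `l` -/
def lower {k T : ℕ} (Δ : ℕ → Option (Fin k × Fin k) → ℤ) (l : ℕ) (π : Path k T) : ℤ :=
  ∑ l' : Fin T, if (l' : ℕ) < l then Δ l' (π l') else 0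

/-- the translation of the cluster `π` -/
def shift {k T : ℕ} (Δ : ℕ → Option (Fin k × Fin k) → ℤ) (π : Path k T) : ℤ := ∑ l : Fin T, Δ l (π l)

theorem shift_sub {k T : ℕ} (Δ : ℕ → Option (Fin k × Fin k) → ℤ) (l : Fin T) (π π' : Path k T) (h : ∀ l' : Fin T, (l : ℕ) < l' → π l' = π' l') :
    shift Δ π - shift Δ π' = (Δ l (π l) - Δ l (π' l)) + (lower Δ l π - lower Δ l π') := by
  classical
  unfold shift lower
  rw [← sum_sub_distrib, ← sum_sub_distrib]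
  have e : Δ l (π l) - Δ l (π' l) = ∑ l' : Fin T, if l' = l then Δ l' (π l') - Δ l' (π' l') else 0 := by simp
  rw [e, ← sum_add_distrib]
  refine sum_congr rfl fun l' _ => ?_
  rcases lt_trichotomy (l' : ℕ) (l : ℕ) with h1 | h1 | h1
  · have h2 : l' ≠ l := fun h3 => by rw [h3] at h1; omega
    rw [if_neg h2, if_pos h1, if_pos h1, zero_add]
  · have h2 : l' = l := Fin.ext h1
    rw [if_pos h2, if_neg (by omega), if_neg (by omega), sub_zero, add_zero]
  · have h2 : l' ≠ l := fun h3 => by rw [h3] at h1; omega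
    rw [if_neg h2, if_neg (by omega), if_neg (by omega), h l' h1]
    ring

theorem lower_congr {k T : ℕ} (Δ Δ' : ℕ → Option (Fin k × Fin k) → ℤ) (l : ℕ) (h : ∀ l' < l, Δ l' = Δ' l') (π : Path k T) : lower Δ l π = lower Δ' l π := by
  unfold lower
  refine sum_congr rfl fun l' _ => ?_
  split_ifs with h1
  · rw [h _ h1]
  · rfl

theorem lower_dvd {k T : ℕ} (Δ : ℕ → Option (Fin k × Fin k) → ℤ) (Q : ℤ) (l : ℕ) (h : ∀ l' < l, ∀ d, Q ∣ Δ l' d) (π : Path k T) : Q ∣ lower Δ l π := by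
  unfold lower
  refine dvd_sum fun l' _ => ?_
  split_ifs with h1
  · exact h _ h1 _
  · exact dvd_zero _

/-- one far translation; `q` is the modulus of the windows, `S` divides the translation -/
theorem LOC_step (k T R q S E : ℕ) (η : ℝ) (hη : 0 < η) (hN : 4 * ((((k * k + 1) ^ T * (k * k + 1) ^ T * (R * R) : ℕ) : ℝ) + 1) * η < 1) (hq : 1 ≤ q)
    (a b L : ℕ) (C : ℤ) (g : ℤ → Prop) (hSq : S * L ∣ q) (hqE : q ∣ E)
    (hlow : ∀ l : ℕ, ∃ Y : ℤ, ((S * L : ℕ) : ℤ) ∣ Y - C ∧ (cz g Y q l : ℝ) ≤ η * l)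
    (low : Path k T → ℤ) (hl : ∀ π, (q : ℤ) ∣ low π) :
    ∃ D : ℤ, (S : ℤ) ∣ D ∧ ∀ π π' : Path k T, ∀ u < R, ∀ u' < R,
      C + L * (D + (low π - low π')) + (E : ℕ) * ((a : ℤ) * (u : ℕ) - b * (u' : ℕ)) ≠ 0 ∧
      ¬ g (C + L * (D + (low π - low π')) + (E : ℕ) * ((a : ℤ) * (u : ℕ) - b * (u' : ℕ))) := by
  classical
  obtain ⟨off, hoff⟩ : ∃ off : Path k T × Path k T × ℕ × ℕ → ℤ, off = fun x => (L : ℤ) * (low x.1 - low x.2.1) + (E : ℕ) * ((a : ℤ) * (x.2.2.1 : ℕ) - b * (x.2.2.2 : ℕ)) := ⟨_, rfl⟩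
  have hdv : ∀ x, (q : ℤ) ∣ off x := by
    intro x
    rw [hoff]
    exact dvd_add (Dvd.dvd.mul_left (dvd_sub (hl x.1) (hl x.2.1)) _) (Dvd.dvd.mul_right (Int.natCast_dvd_natCast.2 hqE) _)
  obtain ⟨w, hw⟩ : ∃ w : Path k T × Path k T × ℕ × ℕ → ℤ, ∀ x, off x = (q : ℤ) * w x := ⟨fun x => (hdv x).choose, fun x => (hdv x).choose_spec⟩
  obtain ⟨O, hO⟩ : ∃ O : Finset ℤ, O = ((univ : Finset (Path k T)) ×ˢ (univ : Finset (Path k T)) ×ˢ range R ×ˢ range R).image w := ⟨_, rfl⟩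
  have hOc : #O ≤ (k * k + 1) ^ T * (k * k + 1) ^ T * (R * R) := by
    rw [hO]
    refine card_image_le.trans (le_of_eq ?_)
    rw [card_product, card_product, card_product, card_univ, card_path, card_range]
    ring
  obtain ⟨B, hB⟩ : ∃ B : ℕ, ∀ o ∈ O, |(q : ℤ) * o| < B := by
    refine ⟨(∑ o ∈ O, |(q : ℤ) * o|).toNat + 1, fun o ho => ?_⟩
    have h1 : |(q : ℤ) * o| ≤ ∑ o ∈ O, |(q : ℤ) * o| := single_le_sum (f := fun o => |(q : ℤ) * o|) (fun o _ => abs_nonneg _) ho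
    have h2 := Int.self_le_toNat (∑ o ∈ O, |(q : ℤ) * o|)
    push_cast
    push_cast at h1 h2
    omega
  obtain ⟨Y, hY1, hY2, hY3⟩ := GEZ g (fun Y => ((S * L : ℕ) : ℤ) ∣ Y - C) q q ((k * k + 1) ^ T * (k * k + 1) ^ T * (R * R)) 1 0 η hq hq dvd_rfl
    (fun Y hY => by
      have e : Y + (q : ℤ) - C = (Y - C) + (q : ℤ) := by ring
      rw [e]
      exact dvd_add hY (Int.natCast_dvd_natCast.2 hSq)) hη le_rfl zero_le_one (fun l => by
      obtain ⟨Y, h1, h2⟩ := hlow l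
      exact ⟨Y, h1, by rw [zero_add]; exact h2⟩)
    (fun l _ Y _ => by
      have h1 : (0 : ℝ) ≤ cz g Y q l := Nat.cast_nonneg _
      have h2 : (0 : ℝ) ≤ η * l := by positivity
      linarith) 1 le_rfl le_rfl O hOc B
  obtain ⟨m, hm⟩ := hY1
  refine ⟨S * m, dvd_mul_right _ _, fun π π' u hu u' hu' => ?_⟩
  have hmem : w (π, π', u, u') ∈ O := by
    rw [hO]
    refine mem_image_of_mem _ ?_
    simp [hu, hu']
  have e : C + L * (S * m + (low π - low π')) + (E : ℕ) * ((a : ℤ) * (u : ℕ) - b * (u' : ℕ)) = Y + (q : ℤ) * w (π, π', u, u') := by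
    rw [← hw, hoff]
    have : Y = C + ((S * L : ℕ) : ℤ) * m := by linarith
    rw [this]
    push_cast
    ring
  rw [e]
  obtain ⟨-, h2⟩ := hY3 _ hmem
  constructor
  · intro h0
    have h3 := hB _ hmem
    have h4 : Y = - ((q : ℤ) * w (π, π', u, u')) := by linarith
    rw [h4, abs_neg] at hY2
    omega
  · intro hg
    have h3 : (1 : ℝ) ≤ cz g (Y + (q : ℤ) * w (π, π', u, u')) q 1 := by
      have : 1 ≤ cz g (Y + (q : ℤ) * w (π, π', u, u')) q 1 := by
        unfold cz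
        refine card_pos.2 ⟨0, ?_⟩
        rw [mem_filter, mem_range]
        refine ⟨one_pos, ?_⟩
        simpa using hg
      exact_mod_cast this
    simp only [Nat.cast_one, mul_one, zero_add] at h2
    linarith

/-- **LOC.** The far translations; the moduli are coarser at the higher levels. -/
theorem LOC (k T R E : ℕ) (η : ℝ) (hη : 0 < η) (hN : 4 * ((((k * k + 1) ^ T * (k * k + 1) ^ T * (R * R) : ℕ) : ℝ) + 1) * η < 1)
    (a b L : Fin k → Fin k → ℕ) (C : Fin k → Fin k → ℤ) (g : Fin k → Fin k → ℤ → Prop) (Bad : Fin k → Fin k → Prop)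
    (S : ℕ → ℕ) (q : ℕ → Fin k → Fin k → ℕ) (hq : ∀ l i j, Bad i j → 1 ≤ q l i j) (hSq : ∀ l < T, ∀ i j, Bad i j → S l * L i j ∣ q l i j)
    (hqE : ∀ l < T, ∀ i j, Bad i j → q l i j ∣ E) (hqS : ∀ l < T, ∀ l' < l, ∀ i j, Bad i j → q l i j ∣ S l')
    (hlow : ∀ l < T, ∀ i j, Bad i j → ∀ m : ℕ, ∃ Y : ℤ, ((S l * L i j : ℕ) : ℤ) ∣ Y - C i j ∧ (cz (g i j) Y (q l i j) m : ℝ) ≤ η * m) (n : ℕ) (hn : n ≤ T) :
    ∃ Δ : ℕ → Option (Fin k × Fin k) → ℤ, (∀ l, Δ l none = 0) ∧ (∀ l d, (S l : ℤ) ∣ Δ l d) ∧ ∀ l < n, ∀ i j, Bad i j → ∀ π π' : Path k T, ∀ u < R, ∀ u' < R,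
      C i j + L i j * (Δ l (some (i, j)) + (lower Δ l π - lower Δ l π')) + (E : ℕ) * ((a i j : ℤ) * (u : ℕ) - b i j * (u' : ℕ)) ≠ 0 ∧
      ¬ g i j (C i j + L i j * (Δ l (some (i, j)) + (lower Δ l π - lower Δ l π')) + (E : ℕ) * ((a i j : ℤ) * (u : ℕ) - b i j * (u' : ℕ))) := by
  classical
  induction n with
  | zero => exact ⟨fun _ _ => 0, fun _ => rfl, fun _ _ => dvd_zero _, fun l hl => absurd hl (Nat.not_lt_zero l)⟩
  | succ n ih =>
    obtain ⟨Δ, h1, h2, h3⟩ := ih (by omega)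
    have h4 : ∀ i j, ∃ D : ℤ, (S n : ℤ) ∣ D ∧ (Bad i j → ∀ π π' : Path k T, ∀ u < R, ∀ u' < R,
      C i j + L i j * (D + (lower Δ n π - lower Δ n π')) + (E : ℕ) * ((a i j : ℤ) * (u : ℕ) - b i j * (u' : ℕ)) ≠ 0 ∧
      ¬ g i j (C i j + L i j * (D + (lower Δ n π - lower Δ n π')) + (E : ℕ) * ((a i j : ℤ) * (u : ℕ) - b i j * (u' : ℕ)))) := by
      intro i j
      by_cases hB : Bad i j
      · obtain ⟨D, h5, h6⟩ := LOC_step k T R (q n i j) (S n) E η hη hN (hq n i j hB) (a i j) (b i j) (L i j) (C i j) (g i j) (hSq n (by omega) i j hB) (hqE n (by omega) i j hB)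
          (hlow n (by omega) i j hB) (lower Δ n)
          (lower_dvd Δ _ n fun l' hl' d => (Int.natCast_dvd_natCast.2 (hqS n (by omega) l' hl' i j hB)).trans (h2 l' d))
        exact ⟨D, h5, fun _ => h6⟩
      · exact ⟨0, dvd_zero _, fun h => absurd h hB⟩
    choose D h5 h6 using h4
    refine ⟨Function.update Δ n (fun d => match d with
      | none => 0
      | some (i, j) => D i j), ?_, ?_, ?_⟩
    · intro l
      by_cases hl : l = n
      · rw [hl, Function.update_self]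
      · rw [Function.update_of_ne hl]
        exact h1 l
    · intro l d
      by_cases hl : l = n
      · rw [hl, Function.update_self]
        cases d with
        | none => exact dvd_zero _
        | some x => exact h5 x.1 x.2
      · rw [Function.update_of_ne hl]
        exact h2 l d
    · intro l hl i j hB π π' u hu u' hu'
      have e1 : ∀ π : Path k T, lower (Function.update Δ n (fun d => match d with
          | none => 0
          | some (i, j) => D i j)) l π = lower Δ l π := by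
        intro π
        refine lower_congr _ _ l (fun l' hl' => ?_) π
        rw [Function.update_of_ne (by omega)]
      rw [e1, e1]
      rcases lt_or_eq_of_le (Nat.lt_succ_iff.1 hl) with h7 | h7
      · rw [Function.update_of_ne (by omega)]
        exact h3 l h7 i j hB π π' u hu u' hu'
      · rw [h7, Function.update_self]
        exact h6 i j hB π π' u hu u' hu'

/-- **MODS.** The choice of the moduli, from the top level down. -/
theorem MODS (k T : ℕ) (D₁ : ℕ) (hD₁ : 1 ≤ D₁) (L : Fin k → Fin k → ℕ) (Bad : Fin k → Fin k → Prop) (hL : ∀ i j, Bad i j → 1 ≤ L i j)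
    (W : Fin k → Fin k → ℕ → ℕ → Prop) (hW : ∀ i j, Bad i j → ∀ D : ℕ, 1 ≤ D → ∃ q : ℕ, 1 ≤ q ∧ D ∣ q ∧ W i j D q) :
    ∃ (S : ℕ → ℕ) (q : ℕ → Fin k → Fin k → ℕ) (E : ℕ), 1 ≤ E ∧ D₁ ∣ E ∧ (∀ l, D₁ ∣ S l) ∧ (∀ l i j, Bad i j → 1 ≤ q l i j) ∧ (∀ l i j, Bad i j → S l * L i j ∣ q l i j) ∧
      (∀ l < T, ∀ i j, Bad i j → q l i j ∣ E) ∧ (∀ l < T, ∀ l' < l, ∀ i j, Bad i j → q l i j ∣ S l') ∧ (∀ l i j, Bad i j → W i j (S l * L i j) (q l i j)) := by
  classical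
  have h1 : ∀ (A : ℕ) (i j : Fin k), ∃ q : ℕ, 1 ≤ q ∧ (1 ≤ A → Bad i j → A * L i j ∣ q ∧ W i j (A * L i j) q) := by
    intro A i j
    by_cases h : 1 ≤ A ∧ Bad i j
    · obtain ⟨q, h2, h3, h4⟩ := hW i j h.2 (A * L i j) (Nat.mul_pos h.1 (hL i j h.2))
      exact ⟨q, h2, fun _ _ => ⟨h3, h4⟩⟩
    · exact ⟨1, le_rfl, fun h2 h3 => absurd ⟨h2, h3⟩ h⟩
  choose qq h2 h3 using h1
  obtain ⟨A, hA0, hA1⟩ : ∃ A : ℕ → ℕ, A 0 = D₁ ∧ ∀ n, A (n + 1) = A n * ∏ i, ∏ j, qq (A n) i j := by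
    refine ⟨fun n => Nat.rec D₁ (fun _ a => a * ∏ i, ∏ j, qq a i j) n, rfl, fun n => rfl⟩
  have hA : ∀ n, 1 ≤ A n := by
    intro n
    induction n with
    | zero => rw [hA0]; exact hD₁
    | succ n ih =>
      rw [hA1]
      exact Nat.mul_pos ih (prod_pos fun i _ => prod_pos fun j _ => h2 _ i j)
  have hAd : ∀ n m, n ≤ m → A n ∣ A m := by
    intro n m h
    induction m, h using Nat.le_induction with
    | base => exact dvd_rfl
    | succ m _ ih =>
      rw [hA1]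
      exact Dvd.dvd.mul_right ih _
  have hqA : ∀ n i j, qq (A n) i j ∣ A (n + 1) := by
    intro n i j
    rw [hA1]
    exact Dvd.dvd.mul_left ((dvd_prod_of_mem (fun j => qq (A n) i j) (mem_univ j)).trans (dvd_prod_of_mem (fun i => ∏ j, qq (A n) i j) (mem_univ i))) _
  refine ⟨fun l => A (T - 1 - l), fun l => qq (A (T - 1 - l)), A T, hA T, ?_, ?_, fun l i j _ => h2 _ i j, fun l i j hB => (h3 _ i j (hA _) hB).1, ?_, ?_,
    fun l i j hB => (h3 _ i j (hA _) hB).2⟩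
  · rw [← hA0]
    exact hAd 0 T (Nat.zero_le _)
  · intro l
    rw [← hA0]
    exact hAd 0 _ (Nat.zero_le _)
  · intro l hl i j _
    exact (hqA _ i j).trans (hAd _ _ (by omega))
  · intro l hl l' hl' i j _
    exact (hqA _ i j).trans (hAd _ _ (by omega))

end Pool.Agent.SK
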