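import Mathlib

/-!
# Project SK (MP_bf63dc_nt): the star recursion (pure combinatorics)
-/

set_option autoImplicit false

namespace Pool.Agent.SK

open Finset

/-- the paths with `T` digits; the digit `none` is the centre, `some (i, j)` the far copy for the pair `(i, j)` -/
abbrev Path (k T : ℕ) : Type := Fin T → Option (Fin k × Fin k)

theorem card_path (k T : ℕ) : Fintype.card (Path k T) = (k * k + 1) ^ T := by
  simp [Path, Fintype.card_option]

open Classical in
/-- slope `i` is hit in the cluster of `π` of level `t` -/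
noncomputable def hit {k T : ℕ} (J : Finset (Path k T × Fin k)) (t : ℕ) (π : Path k T) (i : Fin k) : ℕ :=
  if ∃ π' : Path k T, (∀ l : Fin T, t ≤ (l : ℕ) → π' l = π l) ∧ (π', i) ∈ J then 1 else 0

theorem hit_le_one {k T : ℕ} (J : Finset (Path k T × Fin k)) (t : ℕ) (π : Path k T) (i : Fin k) : hit J t π i ≤ 1 := by
  unfold hit
  split_ifs <;> omega

theorem hit_mono {k T : ℕ} (J : Finset (Path k T × Fin k)) (t : ℕ) (π : Path k T) (i : Fin k) : hit J t π i ≤ hit J (t + 1) π i := by
  unfold hit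
  by_cases h : ∃ π' : Path k T, (∀ l : Fin T, t ≤ (l : ℕ) → π' l = π l) ∧ (π', i) ∈ J
  · obtain ⟨π', h1, h2⟩ := h
    rw [if_pos ⟨π', h1, h2⟩, if_pos ⟨π', fun l hl => h1 l (by omega), h2⟩]
  · rw [if_neg h]
    exact Nat.zero_le _

theorem hit_congr {k T : ℕ} (J : Finset (Path k T × Fin k)) (t : ℕ) (π ρ : Path k T) (i : Fin k) (h : ∀ l : Fin T, t ≤ (l : ℕ) → π l = ρ l) :
    hit J t π i = hit J t ρ i := by
  unfold hit
  have e : (∃ π' : Path k T, (∀ l : Fin T, t ≤ (l : ℕ) → π' l = π l) ∧ (π', i) ∈ J) ↔ (∃ π' : Path k T, (∀ l : Fin T, t ≤ (l : ℕ) → π' l = ρ l) ∧ (π', i) ∈ J) := by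
    constructor
    · rintro ⟨π', h1, h2⟩
      exact ⟨π', fun l hl => (h1 l hl).trans (h l hl), h2⟩
    · rintro ⟨π', h1, h2⟩
      exact ⟨π', fun l hl => (h1 l hl).trans (h l hl).symm, h2⟩
  by_cases h1 : ∃ π' : Path k T, (∀ l : Fin T, t ≤ (l : ℕ) → π' l = π l) ∧ (π', i) ∈ J
  · rw [if_pos h1, if_pos (e.1 h1)]
  · rw [if_neg h1, if_neg (fun h2 => h1 (e.2 h2))]

theorem hit_zero {k T : ℕ} (J : Finset (Path k T × Fin k)) : #J = ∑ π, ∑ i, hit J 0 π i := by
  classical
  rw [← Fintype.sum_prod_type', Finset.card_eq_sum_ones]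
  have h1 : ∀ x : Path k T × Fin k, hit J 0 x.1 x.2 = if x ∈ J then 1 else 0 := by
    intro x
    unfold hit
    have e : (∃ π' : Path k T, (∀ l : Fin T, 0 ≤ (l : ℕ) → π' l = x.1 l) ∧ (π', x.2) ∈ J) ↔ x ∈ J := by
      constructor
      · rintro ⟨π', h1, h2⟩
        have : π' = x.1 := funext fun l => h1 l (Nat.zero_le _)
        rw [this] at h2
        exact h2
      · intro h
        exact ⟨x.1, fun _ _ => rfl, h⟩
    by_cases h : x ∈ J
    · rw [if_pos (e.2 h), if_pos h]
    · rw [if_neg (fun h2 => h (e.1 h2)), if_neg h]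
  rw [Finset.sum_congr rfl (fun x _ => h1 x)]
  simp

/-- **TRE.** The star recursion. -/
theorem TRE (k T : ℕ) (ε β : ℝ) (Bad : Fin k → Fin k → Prop) (hε : 0 < ε) (hT : ((k * k + 1 : ℕ) : ℝ) * k * k ≤ ε * T) (hT1 : 1 ≤ T)
    (J : Finset (Path k T × Fin k))
    (hJ : ∀ (l : Fin T) (i j : Fin k) (π π' : Path k T), Bad i j → (∀ l' : Fin T, (l : ℕ) < l' → π l' = π' l') → π l = some (i, j) → π' l = none →
      (π, i) ∈ J → (π', j) ∉ J)
    (hβ : ∀ I : Finset (Fin k), (∀ i ∈ I, ∀ j ∈ I, ¬ Bad i j) → (#I : ℝ) ≤ β) :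
    (#J : ℝ) ≤ (β + ε) * ((k * k + 1 : ℕ) : ℝ) ^ T := by
  classical
  obtain ⟨P, hP⟩ : ∃ P : ℕ, P = (k * k + 1) ^ T := ⟨_, rfl⟩
  have hcard : Fintype.card (Path k T) = P := by rw [hP]; exact card_path k T
  obtain ⟨Φ, hΦ⟩ : ∃ Φ : ℕ → ℕ, Φ = fun t => ∑ π : Path k T, ∑ i : Fin k, hit J t π i := ⟨_, rfl⟩
  have hmono : ∀ t, Φ t ≤ Φ (t + 1) := by
    intro t
    rw [hΦ]
    exact Finset.sum_le_sum fun π _ => Finset.sum_le_sum fun i _ => hit_mono J t π i
  have hΦm : Monotone Φ := monotone_nat_of_le_succ hmono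
  have hΦk : ∀ t, Φ t ≤ P * k := by
    intro t
    rw [hΦ]
    dsimp only
    calc ∑ π : Path k T, ∑ i : Fin k, hit J t π i ≤ ∑ _π : Path k T, ∑ _i : Fin k, 1 := Finset.sum_le_sum fun π _ => Finset.sum_le_sum fun i _ => hit_le_one J t π i
      _ = P * k := by simp [← hcard]
  -- a level with a small increment
  obtain ⟨t, htT, ht⟩ : ∃ t, t < T ∧ T * (Φ (t + 1) - Φ t) ≤ P * k := by
    by_contra hcon
    push Not at hcon
    have h1 : ∀ n, n ≤ T → n * (P * k) + T * Φ 0 ≤ T * Φ n := by
      intro n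
      induction n with
      | zero => intro _; simp
      | succ n ih =>
        intro hn
        have h2 := ih (by omega)
        have h3 := hcon n (by omega)
        have h4 := hmono n
        have h5 : T * Φ (n + 1) = T * (Φ (n + 1) - Φ n) + T * Φ n := by
          rw [← Nat.mul_add, Nat.sub_add_cancel h4]
        rw [h5]
        have h6 : (n + 1) * (P * k) = n * (P * k) + P * k := by ring
        omega
    have h2 : ∀ n, n < T → (n + 1) * (P * k) + T * Φ 0 < T * Φ (n + 1) := by
      intro n hn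
      have h2 := h1 n (by omega)
      have h3 := hcon n hn
      have h4 := hmono n
      have h5 : T * Φ (n + 1) = T * (Φ (n + 1) - Φ n) + T * Φ n := by
        rw [← Nat.mul_add, Nat.sub_add_cancel h4]
      rw [h5]
      have h6 : (n + 1) * (P * k) = n * (P * k) + P * k := by ring
      omega
    have h3 := h2 (T - 1) (by omega)
    rw [Nat.sub_add_cancel hT1] at h3
    have h4 : T * Φ T ≤ T * (P * k) := Nat.mul_le_mul_left T (hΦk T)
    omega
  -- the bad paths
  obtain ⟨bad, hbad⟩ : ∃ bad : Finset (Path k T), bad = univ.filter fun π => ∃ (d : Option (Fin k × Fin k)) (i : Fin k), hit J t (Function.update π ⟨t, htT⟩ d) i ≠ hit J (t + 1) π i := ⟨_, rfl⟩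
  have hD : ∀ π : Path k T, ∀ d, ∀ i, hit J (t + 1) (Function.update π ⟨t, htT⟩ d) i = hit J (t + 1) π i := by
    intro π d i
    refine hit_congr J (t + 1) _ _ i fun l hl => ?_
    rw [Function.update_of_ne]
    intro h
    rw [h] at hl
    dsimp only at hl
    omega
  obtain ⟨G, hG⟩ : ∃ G : Finset (Path k T), G = univ.filter fun π => ∃ i : Fin k, hit J t π i ≠ hit J (t + 1) π i := ⟨_, rfl⟩
  have hGc : #G ≤ Φ (t + 1) - Φ t := by
    have h1 : #G + Φ t ≤ Φ (t + 1) := by
      rw [hΦ]
      dsimp only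
      have h2 : #G = ∑ π : Path k T, if π ∈ G then 1 else 0 := by simp
      rw [h2, ← Finset.sum_add_distrib]
      refine Finset.sum_le_sum fun π _ => ?_
      by_cases h : π ∈ G
      · rw [if_pos h]
        rw [hG, mem_filter] at h
        obtain ⟨-, i, hi⟩ := h
        have h3 := hit_mono J t π i
        calc 1 + ∑ i, hit J t π i = ∑ j, ((if j = i then 1 else 0) + hit J t π j) := by
              rw [Finset.sum_add_distrib]
              simp
          _ ≤ ∑ j, hit J (t + 1) π j := by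
              refine Finset.sum_le_sum fun j _ => ?_
              by_cases hj : j = i
              · rw [if_pos hj, hj]
                omega
              · rw [if_neg hj, zero_add]
                exact hit_mono J t π j
      · rw [if_neg h, zero_add]
        exact Finset.sum_le_sum fun i _ => hit_mono J t π i
    omega
  have hbadc : bad.card ≤ #G * (k * k + 1) := by
    have h1 : bad ⊆ (G ×ˢ (Finset.univ : Finset (Option (Fin k × Fin k)))).image fun x => Function.update x.1 ⟨t, htT⟩ x.2 := by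
      intro π hπ
      rw [hbad, mem_filter] at hπ
      obtain ⟨-, d, i, hi⟩ := hπ
      rw [mem_image]
      refine ⟨(Function.update π ⟨t, htT⟩ d, π ⟨t, htT⟩), ?_, ?_⟩
      · rw [mem_product]
        refine ⟨?_, mem_univ _⟩
        rw [hG, mem_filter]
        refine ⟨mem_univ _, i, ?_⟩
        rw [hD]
        exact hi
      · simp
    refine (card_le_card h1).trans (card_image_le.trans ?_)
    rw [card_product]
    simp [Fintype.card_option]
  -- the good paths
  have hgood : ∀ π : Path k T, π ∉ bad → ((∑ i, hit J (t + 1) π i : ℕ) : ℝ) ≤ β := by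
    intro π hπ
    have hg : ∀ d i, hit J t (Function.update π ⟨t, htT⟩ d) i = hit J (t + 1) π i := by
      intro d i
      by_contra h
      exact hπ (by rw [hbad, mem_filter]; exact ⟨mem_univ _, d, i, h⟩)
    have h1 : ∑ i, hit J (t + 1) π i = #{i : Fin k | hit J (t + 1) π i = 1} := by
      rw [card_filter]
      refine sum_congr rfl fun i _ => ?_
      have := hit_le_one J (t + 1) π i
      split_ifs with h
      · exact h
      · omega
    rw [h1]
    refine hβ _ fun i hi j hj hB => ?_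
    rw [mem_filter] at hi hj
    have h2 := (hg (some (i, j)) i).trans hi.2
    have h3 := (hg none j).trans hj.2
    unfold hit at h2 h3
    have h4 : ∃ π' : Path k T, (∀ l : Fin T, t ≤ (l : ℕ) → π' l = Function.update π ⟨t, htT⟩ (some (i, j)) l) ∧ (π', i) ∈ J := by
      by_contra h
      rw [if_neg h] at h2
      omega
    have h5 : ∃ π' : Path k T, (∀ l : Fin T, t ≤ (l : ℕ) → π' l = Function.update π ⟨t, htT⟩ none l) ∧ (π', j) ∈ J := by
      by_contra h
      rw [if_neg h] at h3
      omega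
    obtain ⟨π₁, h6, h7⟩ := h4
    obtain ⟨π₂, h8, h9⟩ := h5
    refine hJ ⟨t, htT⟩ i j π₁ π₂ hB ?_ ?_ ?_ h7 h9
    · intro l' hl'
      dsimp only at hl'
      have hne : l' ≠ ⟨t, htT⟩ := by
        intro h
        rw [h] at hl'
        dsimp only at hl'
        omega
      rw [h6 l' hl'.le, h8 l' hl'.le, Function.update_of_ne hne, Function.update_of_ne hne]
    · rw [h6 ⟨t, htT⟩ le_rfl, Function.update_self]
    · rw [h8 ⟨t, htT⟩ le_rfl, Function.update_self]
  have hβ0 : 0 ≤ β := by
    have := hβ ∅ (fun i hi => absurd hi (notMem_empty i))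
    simpa using this
  have hsum : (Φ (t + 1) : ℝ) ≤ P * β + bad.card * k := by
    rw [hΦ]
    dsimp only
    push_cast
    calc ∑ π : Path k T, ∑ i : Fin k, (hit J (t + 1) π i : ℝ) ≤ ∑ π : Path k T, (β + if π ∈ bad then (k : ℝ) else 0) := by
          refine sum_le_sum fun π _ => ?_
          by_cases h : π ∈ bad
          · rw [if_pos h]
            have h1 : ∑ i : Fin k, (hit J (t + 1) π i : ℝ) ≤ ∑ _i : Fin k, (1 : ℝ) := sum_le_sum fun i _ => by exact_mod_cast hit_le_one J (t + 1) π i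
            simp only [sum_const, card_univ, Fintype.card_fin, nsmul_eq_mul, mul_one] at h1
            linarith
          · rw [if_neg h, add_zero]
            have := hgood π h
            push_cast at this
            exact this
      _ = P * β + bad.card * k := by
          rw [sum_add_distrib, sum_const, card_univ, hcard, nsmul_eq_mul]
          congr 1
          rw [← sum_filter, sum_const, nsmul_eq_mul]
          simp
  have hJΦ : (#J : ℝ) ≤ Φ (t + 1) := by
    have h1 : #J = Φ 0 := by rw [hΦ]; exact hit_zero J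
    rw [h1]
    exact_mod_cast hΦm (Nat.zero_le _)
  have hTpos : (0 : ℝ) < T := by exact_mod_cast hT1
  have h1 : (T : ℝ) * #G ≤ P * k := by
    have h2 : T * #G ≤ P * k := (Nat.mul_le_mul_left T hGc).trans ht
    exact_mod_cast h2
  have h2 : (bad.card : ℝ) ≤ #G * ((k * k + 1 : ℕ) : ℝ) := by exact_mod_cast hbadc
  have h3 : (T : ℝ) * (bad.card * k) ≤ T * (ε * P) := by
    have hk0 : (0 : ℝ) ≤ k := Nat.cast_nonneg k
    have hP0 : (0 : ℝ) ≤ P := Nat.cast_nonneg P
    have hm0 : (0 : ℝ) ≤ ((k * k + 1 : ℕ) : ℝ) := Nat.cast_nonneg _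
    calc (T : ℝ) * (bad.card * k) ≤ T * ((#G * ((k * k + 1 : ℕ) : ℝ)) * k) := by gcongr
      _ = (T * #G) * (((k * k + 1 : ℕ) : ℝ) * k) := by ring
      _ ≤ (P * k) * (((k * k + 1 : ℕ) : ℝ) * k) := by gcongr
      _ = P * (((k * k + 1 : ℕ) : ℝ) * k * k) := by ring
      _ ≤ P * (ε * T) := by gcongr
      _ = T * (ε * P) := by ring
  have h4 : (bad.card : ℝ) * k ≤ ε * P := le_of_mul_le_mul_left h3 hTpos
  have h5 : (P : ℝ) = ((k * k + 1 : ℕ) : ℝ) ^ T := by rw [hP]; push_cast; ring
  rw [← h5]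
  calc (#J : ℝ) ≤ Φ (t + 1) := hJΦ
    _ ≤ P * β + bad.card * k := hsum
    _ ≤ P * β + ε * P := by linarith
    _ = (β + ε) * P := by ring

end Pool.Agent.SK
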